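import Pool.Agent.Helper82.AH.Props
import Pool.Agent.Helper10.RC.Homs

/-!
# MP_b55b7c_an: local matrix units (packet AH-FR)
-/

open scoped ENNReal NNReal InnerProductSpace ComplexOrder
open Filter Topology

attribute [-instance] CStarMatrix.instAlgebra CStarMatrix.instModule CStarMatrix.instSMul
  CStarMatrix.instMulAction CStarMatrix.instDistribMulAction

set_option linter.unusedSimpArgs false

noncomputable section
namespace RC
universe u

namespace FR

/-! ## The partial isometry -/

/-- `t ^ (-1/2)`, continuous on the line. -/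
def G (t : ℝ) : ℝ := (Real.sqrt (max t (1 / 4)))⁻¹

theorem G_cont : Continuous G := by
  unfold G
  refine Continuous.inv₀ (by fun_prop) fun t => ?_
  have : 0 < max t (1 / 4) := lt_of_lt_of_le (by norm_num) (le_max_right _ _)
  exact (Real.sqrt_pos.2 this).ne'

theorem G_mul {t : ℝ} (ht : 1 / 4 ≤ t) : G t * t * G t = 1 := by
  unfold G
  rw [max_eq_left ht]
  have h0 : 0 < t := by linarith
  have h1 : 0 < Real.sqrt t := Real.sqrt_pos.2 h0
  have h2 := Real.mul_self_sqrt h0.le
  field_simp
  nlinarith

theorem G_one : G 1 = 1 := by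
  unfold G
  rw [max_eq_left (by norm_num), Real.sqrt_one, inv_one]

theorem polar {A : Type u} [CStarAlgebra A] [PartialOrder A] [StarOrderedRing A] (p q : A)
    (hp : IsStarProjection p) (hq : IsStarProjection q) (h : ‖p - q‖ < 1 / 2) (g : A)
    (hg : g = cfc G (1 + q * (p - q) * q)) :
    star (p * q * g) * (p * q * g) = q ∧ (p * q * g) * star (p * q * g) = p ∧
    (p * q * g) * q = p * q * g := by
  have pp : p * p = p := hp.isIdempotentElem
  have ps : star p = p := hp.isSelfAdjoint
  have qq : q * q = q := hq.isIdempotentElem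
  have qs : star q = q := hq.isSelfAdjoint
  set y : A := q * (p - q) * q with hy
  set T : A := 1 + y with hT
  have hys : IsSelfAdjoint y := by
    rw [hy, IsSelfAdjoint, star_mul, star_mul, star_sub, ps, qs, mul_assoc]
  have hTs : IsSelfAdjoint T := (IsSelfAdjoint.one A).add hys
  have hqn : ‖q‖ ≤ 1 := hq.norm_le
  have hyn : ‖y‖ ≤ 1 / 2 := by
    have h1 : ‖y‖ ≤ ‖q‖ * ‖p - q‖ * ‖q‖ := by
      rw [hy]
      exact (norm_mul_le _ _).trans (mul_le_mul_of_nonneg_right (norm_mul_le _ _) (norm_nonneg _))
    have h2 : ‖q‖ * ‖p - q‖ * ‖q‖ ≤ 1 * ‖p - q‖ * 1 := by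
      gcongr
    linarith
  have hspec : ∀ t ∈ spectrum ℝ T, 1 / 4 ≤ t := by
    have h1 : algebraMap ℝ A (1 / 4) ≤ T := by
      have h2 := IsSelfAdjoint.neg_algebraMap_norm_le_self hys
      have h3 : algebraMap ℝ A ‖y‖ ≤ algebraMap ℝ A (1 / 2) := algebraMap_mono A hyn
      have h4 : algebraMap ℝ A (1 / 4) ≤ algebraMap ℝ A (1 / 2) :=
        algebraMap_mono A (by norm_num)
      have h5 : (1 : A) = algebraMap ℝ A (1 / 2) + algebraMap ℝ A (1 / 2) := by
        rw [← map_add]; norm_num
      have h6 : -algebraMap ℝ A (1 / 2) ≤ y := (neg_le_neg h3).trans h2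
      calc algebraMap ℝ A (1 / 4) ≤ algebraMap ℝ A (1 / 2) := h4
        _ = 1 + -algebraMap ℝ A (1 / 2) := by rw [h5]; abel
        _ ≤ 1 + y := by gcongr
        _ = T := hT.symm
    exact (algebraMap_le_iff_le_spectrum (a := T) hTs).1 h1
  have hTq : T * q = q * p * q := by
    rw [hT, hy]
    have : (1 + q * (p - q) * q) * q = q + (q * p * (q * q) - q * q * (q * q)) := by
      noncomm_ring
    rw [this, qq, qq]
    abel
  have hqT : q * T = q * p * q := by
    rw [hT, hy]
    have : q * (1 + q * (p - q) * q) = q + ((q * q) * p * q - (q * q) * q * q) := by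
      noncomm_ring
    rw [this, qq, qq, qq]
    abel
  have hgs : star g = g := by
    rw [hg]
    exact IsSelfAdjoint.cfc
  have hgT : g * T * g = 1 := by
    have h1 : T = cfc (fun t : ℝ => t) T := (cfc_id' ℝ T).symm
    rw [hg]
    conv_lhs => rw [show cfc G T * T = cfc G T * cfc (fun t : ℝ => t) T by rw [← h1]]
    rw [← cfc_mul G (fun t : ℝ => t) T (G_cont.continuousOn) (by fun_prop),
      ← cfc_mul (fun t => G t * t) G T ((G_cont.mul continuous_id').continuousOn)
        G_cont.continuousOn]
    have h2 : cfc (fun t => G t * t * G t) T = cfc (fun _ : ℝ => (1 : ℝ)) T :=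
      cfc_congr fun t ht => G_mul (hspec t ht)
    rw [h2, cfc_const_one ℝ T]
  have hcomm : g * q = q * g := by
    have h1 : Commute T q := by
      show T * q = q * T
      rw [hTq, hqT]
    rw [hg]
    exact IsSelfAdjoint.commute_cfc hTs h1 G
  set v : A := p * q * g with hv
  have hvs : star v = g * q * p := by
    rw [hv, star_mul, star_mul, hgs, qs, ps, mul_assoc]
  have hvv : star v * v = q := by
    rw [hvs, hv]
    have : g * q * p * (p * q * g) = g * (q * (p * p) * q) * g := by noncomm_ring
    rw [this, pp, ← hTq]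
    have : g * (T * q) * g = g * T * (q * g) := by noncomm_ring
    rw [this, ← hcomm, ← mul_assoc, hgT, one_mul]
  have hvq : v * q = v := by
    rw [hv, mul_assoc, hcomm, mul_assoc p q, ← mul_assoc q q, qq, ← mul_assoc]
  have hpv : p * v = v := by
    rw [hv, ← mul_assoc, ← mul_assoc, pp]
  refine ⟨hvv, ?_, hvq⟩
  set r : A := p - v * star v with hr
  have hrv : r * v = 0 := by
    rw [hr, sub_mul, hpv, mul_assoc, hvv, hvq, sub_self]
  have hvsp : star v * p = star v := by
    rw [← ps, ← star_mul, hpv]
  have hrp : r * p = r := by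
    rw [hr, sub_mul, pp, mul_assoc, hvsp]
  have hrq : r * q = 0 := by
    have h1 : r * q * g = 0 := by
      have : r * v = (r * p) * q * g := by rw [hv]; noncomm_ring
      rw [hrp, hrv] at this
      exact this.symm
    have h2 : r * q = r * q * g * (T * g) := by
      have : r * q * g * (T * g) = r * q * (g * T * g) := by noncomm_ring
      rw [this, hgT, mul_one]
    rw [h2, h1, zero_mul]
  have hr2 : r = r * (p - q) := by
    rw [mul_sub, hrp, hrq, sub_zero]
  have hr0 : r = 0 := by
    have h1 : ‖r‖ ≤ ‖r‖ * ‖p - q‖ := by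
      conv_lhs => rw [hr2]
      exact norm_mul_le _ _
    have h2 := norm_nonneg r
    have h3 : ‖r‖ = 0 := by nlinarith
    exact norm_eq_zero.1 h3
  exact (sub_eq_zero.1 hr0).symm

theorem polar0 {A : Type u} [CStarAlgebra A] (q g : A)
    (hg : g = cfc G (1 + q * (q - q) * q)) : g = 1 := by
  rw [hg, sub_self, mul_zero, zero_mul, add_zero, cfc_apply_one, G_one, map_one]

theorem exists_fun (E : Type u) [CStarAlgebra E] (T : E) (hT : IsSelfAdjoint T) :
    ∃ g : E, ∀ (D : Type u) [CStarAlgebra D] (Φ : E →⋆ₐ[ℂ] D), Φ g = cfc G (Φ T) :=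
  ⟨cfc G T, fun _ _ Φ => starHom_cfc Φ G G_cont T hT⟩

/-- Evaluation. -/
def evH {N : ℕ} {X : Type} [TopologicalSpace X] [CompactSpace X] (x : X) :
    C(X, Mt N) →⋆ₐ[ℂ] Mt N where
  toFun f := f x
  map_one' := rfl
  map_mul' _ _ := rfl
  map_zero' := rfl
  map_add' _ _ := rfl
  commutes' _ := rfl
  map_star' _ := rfl

/-! ## Diagonalization -/

theorem trM_comm {N : ℕ} (a b : Mt N) : trM (a * b) = trM (b * a) := by
  have h : ∀ m : Mt N, trM m = (Matrix.trace (CStarMatrix.ofMatrix.symm m)).re := fun m => rfl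
  rw [h, h]
  congr 1
  exact Matrix.trace_mul_comm (CStarMatrix.ofMatrix.symm a) (CStarMatrix.ofMatrix.symm b)

theorem trM_sum {N : ℕ} {ι : Type} (s : Finset ι) (f : ι → Mt N) :
    trM (∑ i ∈ s, f i) = ∑ i ∈ s, trM (f i) := by
  have h : ∀ m : Mt N, trM m = (Matrix.trace (CStarMatrix.ofMatrix.symm m)).re := fun m => rfl
  have h2 : (CStarMatrix.ofMatrix.symm (∑ i ∈ s, f i) : Matrix (Fin N) (Fin N) ℂ) =
      ∑ i ∈ s, CStarMatrix.ofMatrix.symm (f i) := rfl
  rw [h, h2, Matrix.trace_sum, Complex.re_sum]
  rfl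

/-- An eigenbasis of a hermitian matrix, as matrix units. -/
theorem units {N : ℕ} (H : Mt N) (hH : star H = H) :
    ∃ (z : Fin N → Fin N → Mt N) (μ : Fin N → ℝ),
      (∀ i j, star (z i j) = z j i) ∧
      (∀ i j k l, z i j * z k l = if j = k then z i l else 0) ∧ ∑ i, z i i = 1 ∧
      (∀ i j, H * z i j = μ i • z i j) ∧ ∀ i, trM (z i i) = 1 := by
  have hA : (CStarMatrix.ofMatrix.symm H : Matrix (Fin N) (Fin N) ℂ).IsHermitian := hH
  set A : Matrix (Fin N) (Fin N) ℂ := CStarMatrix.ofMatrix.symm H with hAdef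
  set U : Matrix (Fin N) (Fin N) ℂ := (hA.eigenvectorUnitary : Matrix (Fin N) (Fin N) ℂ) with hU
  have hUU : star U * U = 1 := Unitary.coe_star_mul_self hA.eigenvectorUnitary
  have hUU' : U * star U = 1 := Unitary.coe_mul_star_self hA.eigenvectorUnitary
  have hsp : A = U * Matrix.diagonal (fun i => (hA.eigenvalues i : ℂ)) * star U := by
    have := hA.spectral_theorem
    rw [Unitary.conjStarAlgAut_apply] at this
    exact this
  let z : Fin N → Fin N → Matrix (Fin N) (Fin N) ℂ := fun i j =>
    U * Matrix.single i j 1 * star U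
  have hz : ∀ i j k l, z i j * z k l = if j = k then z i l else 0 := by
    intro i j k l
    have e : z i j * z k l = U * (Matrix.single i j 1 * (star U * U) * Matrix.single k l 1) *
        star U := by
      simp only [z, mul_assoc]
    rw [e, hUU, mul_one]
    by_cases hjk : j = k
    · subst hjk
      rw [if_pos rfl, Matrix.single_mul_single_same, mul_one]
    · rw [if_neg hjk, Matrix.single_mul_single_of_ne _ _ _ _ hjk, mul_zero, zero_mul]
  refine ⟨fun i j => CStarMatrix.ofMatrix (z i j), hA.eigenvalues, ?_, ?_, ?_, ?_, ?_⟩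
  · intro i j
    have : star (z i j) = z j i := by
      simp only [z, star_mul, star_star, Matrix.star_eq_conjTranspose, Matrix.conjTranspose_single,
        star_one, mul_assoc, Matrix.conjTranspose_mul, Matrix.conjTranspose_conjTranspose]
    exact this
  · intro i j k l
    have := hz i j k l
    by_cases hjk : j = k
    · rw [if_pos hjk] at this ⊢
      exact this
    · rw [if_neg hjk] at this ⊢
      exact this
  · have : ∑ i, z i i = 1 := by
      have e : ∑ i, z i i = U * (∑ i, Matrix.single i i (1 : ℂ)) * star U := by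
        rw [Finset.mul_sum, Finset.sum_mul]
      have e2 : ∑ i, Matrix.single i i (1 : ℂ) = (1 : Matrix (Fin N) (Fin N) ℂ) := by
        ext a b
        rw [Matrix.sum_apply, Matrix.one_apply]
        simp only [Matrix.single_apply]
        by_cases hab : a = b
        · subst hab
          rw [if_pos rfl, Finset.sum_eq_single a]
          · simp
          · intro c _ hc
            simp [hc]
          · simp
        · rw [if_neg hab]
          refine Finset.sum_eq_zero fun c _ => ?_
          rw [if_neg]
          rintro ⟨rfl, rfl⟩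
          exact hab rfl
      rw [e, e2, mul_one, hUU']
    exact this
  · intro i j
    have : A * z i j = (hA.eigenvalues i : ℂ) • z i j := by
      have e : A * z i j = U * (Matrix.diagonal (fun i => (hA.eigenvalues i : ℂ)) *
          (star U * U) * Matrix.single i j 1) * star U := by
        conv_lhs => rw [hsp]
        simp only [z, mul_assoc]
      rw [e, hUU, mul_one]
      have e2 : Matrix.diagonal (fun i => (hA.eigenvalues i : ℂ)) * Matrix.single i j (1 : ℂ) =
          (hA.eigenvalues i : ℂ) • Matrix.single i j (1 : ℂ) := by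
        ext a b
        rw [Matrix.diagonal_mul, Matrix.smul_apply, Matrix.single_apply, smul_eq_mul]
        by_cases h : i = a ∧ j = b
        · rw [if_pos h, h.1]
        · rw [if_neg h, mul_zero, mul_zero]
      rw [e2]
      simp only [z, Matrix.mul_smul, Matrix.smul_mul]
    have e3 : (hA.eigenvalues i : ℂ) • z i j = (hA.eigenvalues i) • z i j := by
      ext a b
      rw [Matrix.smul_apply, Matrix.smul_apply, Complex.real_smul, smul_eq_mul]
    rw [e3] at this
    exact this
  · intro i
    have h : (Matrix.trace (z i i)).re = 1 := by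
      simp only [z]
      rw [Matrix.trace_mul_comm, ← mul_assoc, hUU, one_mul, Matrix.trace_single_eq_same,
        Complex.one_re]
    exact h

/-- Diagonalization in a corner, abstract version. -/
theorem spec_abs {A : Type u} [CStarAlgebra A] [PartialOrder A] [StarOrderedRing A] {N : ℕ}
    (q f : A) (hq : IsStarProjection q) (hf : 0 ≤ f) (hqf : q * f * q = f)
    (z : Fin N → Fin N → A) (μ : Fin N → ℝ) (z1 : ∀ i j, star (z i j) = z j i)
    (z2 : ∀ i j k l, z i j * z k l = if j = k then z i l else 0) (z3 : ∑ i, z i i = 1)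
    (z4 : ∀ i j, (f - (1 - q)) * z i j = μ i • z i j) (hz0 : ∀ i, z i i ≠ 0) :
    ∃ (m : ℕ) (e : Fin m → Fin N), Function.Injective e ∧ (∀ k, 0 ≤ μ (e k)) ∧
      (∀ k j, q * z (e k) j = z (e k) j) ∧ q = ∑ k, z (e k) (e k) ∧
      f = ∑ k, μ (e k) • z (e k) (e k) := by
  classical
  have qq : q * q = q := hq.isIdempotentElem
  have qs : star q = q := hq.isSelfAdjoint
  have fs : star f = f := hf.isSelfAdjoint
  have hqf1 : q * f = f := by
    rw [← hqf]
    have : q * (q * f * q) = q * q * f * q := by noncomm_ring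
    rw [this, qq]
  have hfq : f * q = f := by
    rw [← hqf]
    have : q * f * q * q = q * f * (q * q) := by noncomm_ring
    rw [this, qq]
  have hzpos : ∀ i, 0 ≤ z i i := by
    intro i
    have h1 : z i i = star (z i i) * z i i := by
      rw [z1, z2, if_pos rfl]
    rw [h1]
    exact star_mul_self_nonneg _
  -- the eigenvectors in the range of `q`
  have hin : ∀ i, μ i ≠ -1 → ∀ j, q * z i j = z i j := by
    intro i hi j
    have h1 : (1 - q) * ((f - (1 - q)) * z i j) = -((1 - q) * z i j) := by
      have : (1 - q) * ((f - (1 - q)) * z i j) =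
          (f - q * f - (1 - q - q + q * q)) * z i j := by noncomm_ring
      rw [this, hqf1, qq]
      noncomm_ring
    rw [z4, mul_smul_comm] at h1
    have h2 : (μ i + 1) • ((1 - q) * z i j) = 0 := by
      rw [add_smul, one_smul, h1, neg_add_cancel]
    have h3 : (1 - q) * z i j = 0 := by
      rcases smul_eq_zero.1 h2 with h | h
      · exact absurd (by linarith) hi
      · exact h
    rw [sub_mul, one_mul, sub_eq_zero] at h3
    exact h3.symm
  have hout : ∀ i, μ i = -1 → ∀ j, q * z i j = 0 := by
    intro i hi j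
    have h1 : q * ((f - (1 - q)) * z i j) = f * z i j := by
      have : q * ((f - (1 - q)) * z i j) = (q * f - (q - q * q)) * z i j := by noncomm_ring
      rw [this, hqf1, qq, sub_self, sub_zero]
    rw [z4, hi, mul_smul_comm] at h1
    have h2 : f * z i j = -(q * z i j) := by
      rw [← h1, neg_smul, one_smul]
    have h3 : 0 ≤ star (q * z i j) * f * (q * z i j) := by
      have := star_left_conjugate_nonneg hf (q * z i j)
      exact this
    have h4 : star (q * z i j) * f * (q * z i j) = -(star (q * z i j) * (q * z i j)) := by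
      have e1 : star (q * z i j) * f * (q * z i j) = star (q * z i j) * ((f * q) * z i j) := by
        noncomm_ring
      rw [e1, hfq, h2]
      noncomm_ring
    rw [h4] at h3
    have h5 : star (q * z i j) * (q * z i j) ≤ 0 := by
      rwa [Left.nonneg_neg_iff] at h3
    have h6 : star (q * z i j) * (q * z i j) = 0 := le_antisymm h5 (star_mul_self_nonneg _)
    exact CStarRing.star_mul_self_eq_zero_iff _ |>.1 h6
  let K : Type := {i : Fin N // μ i ≠ -1}
  let e : Fin (Fintype.card K) ≃ K := (Fintype.equivFin K).symm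
  have hsum : ∀ F : Fin N → A, (∀ i, μ i = -1 → F i = 0) → ∑ i, F i = ∑ k, F (e k).1 := by
    intro F hF
    have h1 : ∑ k, F (e k).1 = ∑ k : K, F k.1 := Equiv.sum_comp e fun k : K => F k.1
    have h2 : ∑ k : K, F k.1 = ∑ i ∈ Finset.univ.filter (fun i => μ i ≠ -1), F i :=
      (Finset.sum_subtype _ (by simp) F).symm
    rw [h1, h2]
    refine (Finset.sum_subset (Finset.subset_univ _) fun i _ hi => ?_).symm
    apply hF
    by_contra hcon
    exact hi (by simp [hcon])
  have hqsum : q = ∑ k, z (e k).1 (e k).1 := by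
    have h1 : q = ∑ i, q * z i i := by
      rw [← Finset.mul_sum, z3, mul_one]
    rw [h1, hsum _ fun i hi => hout i hi i]
    refine Finset.sum_congr rfl fun k _ => ?_
    exact hin _ (e k).2 _
  have hfz : ∀ i, μ i ≠ -1 → f * z i i = μ i • z i i := by
    intro i hi
    have h1 := z4 i i
    rw [sub_mul, sub_mul, hin i hi, one_mul, sub_self, sub_zero] at h1
    exact h1
  refine ⟨Fintype.card K, fun k => (e k).1, fun k l h => e.injective (Subtype.ext h), ?_,
    fun k j => hin _ (e k).2 _, hqsum, ?_⟩
  · intro k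
    by_contra hcon
    push Not at hcon
    set i := (e k).1 with hi
    have h1 : 0 ≤ star (z i i) * f * z i i := star_left_conjugate_nonneg hf (z i i)
    have h2 : star (z i i) * f * z i i = μ i • z i i := by
      rw [mul_assoc, hfz i (e k).2, mul_smul_comm, z1, z2, if_pos rfl]
    rw [h2] at h1
    have h3 : μ i • z i i ≤ 0 := by
      have := smul_nonneg (show 0 ≤ -μ i by linarith) (hzpos i)
      rw [neg_smul] at this
      rwa [Left.nonneg_neg_iff] at this
    have h4 : μ i • z i i = 0 := le_antisymm h3 h1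
    rcases smul_eq_zero.1 h4 with h | h
    · linarith
    · exact hz0 i h
  · calc f = f * q := hfq.symm
      _ = ∑ k, f * z (e k).1 (e k).1 := by
        conv_lhs => rw [hqsum]
        rw [Finset.mul_sum]
      _ = _ := Finset.sum_congr rfl fun k _ => hfz _ (e k).2

/-- Diagonalization in a corner. -/
theorem spec {N : ℕ} (q f : Mt N) (hq : IsStarProjection q) (hf : 0 ≤ f) (hqf : q * f * q = f) :
    ∃ (m : ℕ) (z : Fin m → Fin m → Mt N) (lam : Fin m → ℝ),
      (∀ i, 0 ≤ lam i) ∧ (∀ i j, q * z i j = z i j) ∧ (∀ i j, star (z i j) = z j i) ∧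
      (∀ i j k l, z i j * z k l = if j = k then z i l else 0) ∧ ∑ i, z i i = q ∧
      f = ∑ i, lam i • z i i ∧ trM q = m := by
  have qs : star q = q := hq.isSelfAdjoint
  have fs : star f = f := hf.isSelfAdjoint
  obtain ⟨z, μ, z1, z2, z3, z4, z5⟩ := units (f - (1 - q)) (by
    rw [star_sub, star_sub, fs, qs, star_one])
  have hz0 : ∀ i, z i i ≠ 0 := by
    intro i h
    have := z5 i
    rw [h] at this
    have h0 : trM (0 : Mt N) = 0 := by
      show (∑ i : Fin N, (0 : ℂ)).re = 0
      simp
    rw [h0] at this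
    exact zero_ne_one this
  obtain ⟨m, e, e1, e2, e3, e4, e5⟩ := spec_abs q f hq hf hqf z μ z1 z2 z3 z4 hz0
  refine ⟨m, fun i j => z (e i) (e j), fun i => μ (e i), e2, fun i j => e3 i (e j),
    fun i j => z1 _ _, ?_, e4.symm, e5, ?_⟩
  · intro i j k l
    rw [z2]
    by_cases hjk : j = k
    · subst hjk
      rw [if_pos rfl, if_pos rfl]
    · rw [if_neg hjk, if_neg]
      intro h
      exact hjk (e1 h)
  · rw [e4, trM_sum, Finset.sum_congr rfl fun k _ => z5 (e k)]
    simp

end FR

open FR in
/-- Packet AH-FR. -/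
theorem frameP : FrameP := by
  intro D N X hX p f hp hpf hf x₀
  have : CompactSpace X := isCompact_iff_compactSpace.1 hX
  obtain ⟨m, z, lam, l1, l2, l3, l4, l5, l6, l7⟩ := spec (p x₀) (f x₀) (hp x₀) (hf x₀) (by
    have := congrArg (fun g : C(X, Mt N) => g x₀) hpf
    exact this)
  have qs : star (p x₀) = p x₀ := (hp x₀).isSelfAdjoint
  have qq : p x₀ * p x₀ = p x₀ := (hp x₀).isIdempotentElem
  have l2' : ∀ i j, z i j * p x₀ = z i j := by
    intro i j
    have := congrArg star (l2 j i)
    rwa [star_mul, l3, qs] at this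
  let Q : C(X, Mt N) := ContinuousMap.const X (p x₀)
  let T : C(X, Mt N) := 1 + Q * (p - Q) * Q
  have hTs : IsSelfAdjoint T := by
    ext1 x
    show star (1 + p x₀ * (p x - p x₀) * p x₀) = 1 + p x₀ * (p x - p x₀) * p x₀
    rw [star_add, star_mul, star_mul, star_sub, (hp x).isSelfAdjoint.star_eq, qs, star_one,
      mul_assoc]
  obtain ⟨g, hg⟩ := exists_fun C(X, Mt N) T hTs
  let V : C(X, Mt N) := p * Q * g
  have hgx := fun x => hg (Mt N) (evH x)
  have hpV : ∀ x, p x * V x = V x := by
    intro x
    show p x * (p x * p x₀ * g x) = p x * p x₀ * g x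
    rw [← mul_assoc, ← mul_assoc, (hp x).isIdempotentElem.eq]
  have hVp : ∀ x, star (V x) * p x = star (V x) := by
    intro x
    have := congrArg star (hpV x)
    rwa [star_mul, (hp x).isSelfAdjoint.star_eq] at this
  have hV0 : V x₀ = p x₀ := by
    have h1 : g x₀ = 1 := polar0 (p x₀) (g x₀) (hgx x₀)
    show p x₀ * p x₀ * g x₀ = p x₀
    rw [h1, mul_one, qq]
  refine ⟨m, fun i j => V * ContinuousMap.const X (z i j) * star V, lam, l1, ?_, ?_,
    {x | ‖p x - p x₀‖ < 1 / 2}, ?_, ?_⟩
  · intro i j
    ext1 x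
    show p x * (V x * z i j * star (V x)) * p x = V x * z i j * star (V x)
    rw [← mul_assoc, ← mul_assoc, hpV, mul_assoc, hVp]
  · have h1 : ∀ i, (V * ContinuousMap.const X (z i i) * star V) x₀ = z i i := by
      intro i
      show V x₀ * z i i * star (V x₀) = z i i
      rw [hV0, l2, qs, l2']
    rw [Finset.sum_congr rfl fun i _ => by rw [h1 i]]
    exact l6
  · refine IsOpen.mem_nhds ?_ ?_
    · exact isOpen_lt (by fun_prop) continuous_const
    · show ‖p x₀ - p x₀‖ < 1 / 2
      rw [sub_self, norm_zero]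
      norm_num
  · intro x hx
    obtain ⟨v1, v2, v3⟩ := polar (p x) (p x₀) (hp x) (hp x₀) hx (g x) (hgx x)
    have w1 : star (V x) * V x = p x₀ := v1
    have w2 : V x * star (V x) = p x := v2
    have w3 : V x * p x₀ = V x := v3
    refine ⟨?_, ?_, ?_⟩
    · rw [← l7, ← w2, trM_comm, w1]
    · show ∑ i, V x * z i i * star (V x) = p x
      rw [← Finset.sum_mul, ← Finset.mul_sum, l5, w3, w2]
    · intro i j
      refine ⟨?_, ?_⟩
      · show star (V x * z i j * star (V x)) = V x * z j i * star (V x)
        rw [star_mul, star_mul, star_star, l3, mul_assoc]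
      · intro k l
        show V x * z i j * star (V x) * (V x * z k l * star (V x)) = _
        have h1 : V x * z i j * star (V x) * (V x * z k l * star (V x)) =
            V x * (z i j * (star (V x) * V x) * z k l) * star (V x) := by noncomm_ring
        rw [h1, w1, l2', l4]
        by_cases hjk : j = k
        · rw [if_pos hjk, if_pos hjk]
          rfl
        · rw [if_neg hjk, if_neg hjk, mul_zero, zero_mul]

end RC
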